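import Pool.Agent.R112.Pack
import Pool.Agent.R112.PackNum

set_option autoImplicit false

/-!
# Diagonal products of stochastic matrices of bounded rank

For all `1 ≤ k ≤ n`, every permutation `σ` and every row-stochastic or column-stochastic real
`n × n` matrix `A` of rank at most `k`, the diagonal product of `A` along `σ` is at most
`M(n,k) = (1/r^r)^(k-s) (1/(r+1)^(r+1))^s`, where `n = r k + s`, `0 ≤ s < k`, and equality holds
exactly for the matrices `Pᵀ J_r P π(σ)`.

Idea: let `V` be formed by linearly independent rows of `A` spanning its row space, and choose a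
partition of the columns into `rank A` groups for which the determinant of the matrix of group sums
of `V` has the largest absolute value.  If `y_j` are the coordinates of the column `j` in the basis
of the group sums, then the coordinate of `y_j` at the own group of `j` is its largest coordinate
`w_j`; hence every entry of the column `j` is at most `w_j`, and the `w_j` of a group sum to one.
-/

namespace Pool.Agent.Results.MP_bd2037_co.DiagonalProducts

open Finset Matrix

/-- Row-stochastic: nonnegative entries and every row sums to one. -/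
def RowStochastic {n : ℕ} (A : Matrix (Fin n) (Fin n) ℝ) : Prop :=
  (∀ i j, 0 ≤ A i j) ∧ ∀ i, ∑ j, A i j = 1

/-- Column-stochastic: nonnegative entries and every column sums to one. -/
def ColStochastic {n : ℕ} (A : Matrix (Fin n) (Fin n) ℝ) : Prop :=
  (∀ i j, 0 ≤ A i j) ∧ ∀ j, ∑ i, A i j = 1

/-- `M(n,k) = (1/r^r)^(k-s) * (1/(r+1)^(r+1))^s` with `r = n / k` and `s = n % k`. -/
noncomputable def M (n k : ℕ) : ℝ :=
  (1 / ((n / k : ℕ) : ℝ) ^ (n / k)) ^ (k - n % k) *
    (1 / ((n / k + 1 : ℕ) : ℝ) ^ (n / k + 1)) ^ (n % k)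

/-- The composition of `n` with `k - s` parts equal to `r` followed by `s` parts equal to `r + 1`,
where `r = n / k` and `s = n % k`. -/
def comp (n k : ℕ) (hk : 1 ≤ k) (hkn : k ≤ n) : Composition n where
  blocks := List.replicate (k - n % k) (n / k) ++ List.replicate (n % k) (n / k + 1)
  blocks_pos := by
    intro i hi
    rcases List.mem_append.1 hi with h | h
    · rw [(List.mem_replicate.1 h).2]
      exact Nat.div_pos hkn hk
    · rw [(List.mem_replicate.1 h).2]
      exact Nat.succ_pos _
  blocks_sum := by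
    rw [List.sum_append, List.sum_replicate, List.sum_replicate, smul_eq_mul, smul_eq_mul]
    have h1 := Nat.div_add_mod n k
    have h2 : n % k < k := Nat.mod_lt _ hk
    obtain ⟨t, ht⟩ : ∃ t, k = n % k + t := ⟨k - n % k, by omega⟩
    have h3 : k - n % k = t := by omega
    rw [h3]
    calc t * (n / k) + n % k * (n / k + 1) = (n % k + t) * (n / k) + n % k := by ring
      _ = k * (n / k) + n % k := by rw [← ht]
      _ = n := h1

/-- The block-diagonal matrix `J_c` of a composition `c` of `n`: the entry `(i,j)` is `1/m` if `i`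
and `j` lie in the same block of `c` and this block has size `m`, and zero otherwise. -/
noncomputable def J {n : ℕ} (c : Composition n) : Matrix (Fin n) (Fin n) ℝ :=
  fun i j => if c.index i = c.index j then 1 / (c.blocksFun (c.index i) : ℝ) else 0

lemma M_eq (n k : ℕ) : M n k = Pool.Agent.R112.PackNum.M n k := rfl

open Pool.Agent.R112 Pool.Agent.R112.PackNum Pool.Agent.R112.Pack

lemma comp_length (n k : ℕ) (hk : 1 ≤ k) (hkn : k ≤ n) : (comp n k hk hkn).length = k := by
  have h2 : n % k < k := Nat.mod_lt _ hk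
  simp only [Composition.length, comp, List.length_append, List.length_replicate]
  omega

lemma comp_blocksFun (n k : ℕ) (hk : 1 ≤ k) (hkn : k ≤ n) (i : Fin (comp n k hk hkn).length) :
    (comp n k hk hkn).blocksFun i = n / k ∨ (comp n k hk hkn).blocksFun i = n / k + 1 := by
  have h : (comp n k hk hkn).blocksFun i ∈ (comp n k hk hkn).blocks := List.get_mem _ _
  rcases List.mem_append.1 h with h | h
  · exact Or.inl (List.mem_replicate.1 h).2
  · exact Or.inr (List.mem_replicate.1 h).2

lemma card_index {n : ℕ} (c : Composition n) (b : Fin c.length) :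
    Fintype.card {i // c.index i = b} = c.blocksFun b := by
  rw [← Fintype.card_fin (c.blocksFun b)]
  refine (Fintype.card_congr (Equiv.ofBijective
    (fun x : Fin (c.blocksFun b) => (⟨c.embedding b x, c.index_embedding b x⟩ :
      {i // c.index i = b})) ⟨?_, ?_⟩)).symm
  · intro x y h
    exact (c.embedding b).injective (Subtype.ext_iff.1 h)
  · rintro ⟨i, rfl⟩
    exact ⟨c.invEmbedding i, Subtype.ext (c.embedding_comp_inv i)⟩

/-- entries of the extremal matrices -/
lemma conj_apply {n : ℕ} (B : Matrix (Fin n) (Fin n) ℝ) (P σ : Equiv.Perm (Fin n)) (i j : Fin n) :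
    ((P.permMatrix ℝ)ᵀ * B * P.permMatrix ℝ * σ.permMatrix ℝ) i j
      = B (P.symm i) (P.symm (σ.symm j)) := by
  have h1 : ∀ (X : Matrix (Fin n) (Fin n) ℝ) (τ : Equiv.Perm (Fin n)) (a b : Fin n),
      (X * τ.permMatrix ℝ) a b = X a (τ.symm b) := by
    intro X τ a b
    rw [Matrix.mul_apply, Finset.sum_eq_single (τ.symm b)]
    · simp [Equiv.Perm.permMatrix, PEquiv.toMatrix_apply]
    · intro c _ hc
      have : τ c ≠ b := fun h => hc (by rw [← h, Equiv.symm_apply_apply])
      simp [Equiv.Perm.permMatrix, PEquiv.toMatrix_apply, this]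
    · intro h; exact absurd (mem_univ _) h
  have h2 : ∀ (X : Matrix (Fin n) (Fin n) ℝ) (τ : Equiv.Perm (Fin n)) (a b : Fin n),
      ((τ.permMatrix ℝ)ᵀ * X) a b = X (τ.symm a) b := by
    intro X τ a b
    rw [Matrix.mul_apply, Finset.sum_eq_single (τ.symm a)]
    · simp [Equiv.Perm.permMatrix, PEquiv.toMatrix_apply]
    · intro c _ hc
      have : τ c ≠ a := fun h => hc (by rw [← h, Equiv.symm_apply_apply])
      simp [Equiv.Perm.permMatrix, PEquiv.toMatrix_apply, this]
    · intro h; exact absurd (mem_univ _) h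
  rw [h1, h1, h2]

/-- value of the extremal matrices -/
lemma prod_extremal (n k : ℕ) (hk : 1 ≤ k) (hkn : k ≤ n) (P σ : Equiv.Perm (Fin n)) :
    ∏ i, ((P.permMatrix ℝ)ᵀ * J (comp n k hk hkn) * P.permMatrix ℝ * σ.permMatrix ℝ) i (σ i)
      = M n k := by
  set c := comp n k hk hkn with hc
  have h1 : ∀ i, ((P.permMatrix ℝ)ᵀ * J c * P.permMatrix ℝ * σ.permMatrix ℝ) i (σ i)
      = 1 / (c.blocksFun (c.index (P.symm i)) : ℝ) := by
    intro i
    rw [conj_apply, Equiv.symm_apply_apply, J, if_pos rfl]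
  rw [prod_congr rfl fun i _ => h1 i,
    Equiv.prod_comp P.symm (fun i => 1 / (c.blocksFun (c.index i) : ℝ)),
    ← Finset.prod_fiberwise univ c.index (fun i => 1 / (c.blocksFun (c.index i) : ℝ))]
  have h2 : ∀ b : Fin c.length, ∏ i with c.index i = b, (1 / (c.blocksFun (c.index i) : ℝ))
      = (1 / (c.blocksFun b : ℝ)) ^ (c.blocksFun b) := by
    intro b
    rw [prod_congr rfl (g := fun _ => 1 / (c.blocksFun b : ℝ))
      (fun i hi => by rw [(mem_filter.1 hi).2]), prod_const, ← card_index c b,
      Fintype.card_subtype]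
  rw [prod_congr rfl fun b _ => h2 b, M_eq]
  exact prod_eq_M _ n k hk (by rw [Fintype.card_fin]; exact comp_length n k hk hkn)
    c.sum_blocksFun (comp_blocksFun n k hk hkn)

lemma group_nonneg {κ : Type} [Fintype κ] [DecidableEq κ] {n : ℕ} {m : Type} [Fintype m]
    [DecidableEq m] {V : Matrix κ (Fin n) ℝ} {f : Fin n → κ} (h : Opt V f)
    (A : Matrix m (Fin n) ℝ) (C : Matrix m κ ℝ) (hA : A = C * V) (h0 : ∀ i j, 0 ≤ A i j)
    (h1 : ∀ i, ∑ j, A i j = 1) (i : m) (j : Fin n) : 0 ≤ Y V f (f j) j :=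
  (h0 i j).trans (h.entry_le A C hA h0 h1 i j)

/-- the upper bound for row-stochastic matrices, with the equality information -/
lemma bound_row {κ : Type} [Fintype κ] [DecidableEq κ] {n : ℕ} {V : Matrix κ (Fin n) ℝ}
    {f : Fin n → κ} (h : Opt V f)
    (A : Matrix (Fin n) (Fin n) ℝ) (C : Matrix (Fin n) κ ℝ) (hA : A = C * V)
    (h0 : ∀ i j, 0 ≤ A i j) (h1 : ∀ i, ∑ j, A i j = 1) (k : ℕ) (hk : 1 ≤ k) (hkn : k ≤ n)
    (hκ : Fintype.card κ ≤ k) (σ : Equiv.Perm (Fin n)) :
    ∏ i, A i (σ i) ≤ M n k ∧ (∏ i, A i (σ i) = M n k →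
      Fintype.card κ = k ∧
      (∀ b, #{j | f j = b} = n / k ∨ #{j | f j = b} = n / k + 1) ∧
      (∀ j, Y V f (f j) j = 1 / (#{x | f x = f j} : ℝ)) ∧
      ∀ j, A (σ.symm j) j = 1 / (#{x | f x = f j} : ℝ)) := by
  have hle : ∀ i j, A i j ≤ Y V f (f j) j := h.entry_le A C hA h0 h1
  have hw0 : ∀ j, 0 ≤ Y V f (f j) j := fun j => (h0 j j).trans (hle j j)
  have e1 : ∏ i, A i (σ i) = ∏ j, A (σ.symm j) j := by
    rw [← Equiv.prod_comp σ (fun j => A (σ.symm j) j)]
    simp
  have h2 : ∏ j, A (σ.symm j) j ≤ ∏ j, Y V f (f j) j :=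
    prod_le_prod (fun j _ => h0 _ _) fun j _ => hle _ _
  have e2 : ∏ j, Y V f (f j) j = ∏ b, ∏ j with f j = b, Y V f (f j) j :=
    (Finset.prod_fiberwise univ f _).symm
  have h3 : ∏ b, ∏ j with f j = b, Y V f (f j) j ≤ ∏ b, (1 / (#{j | f j = b} : ℝ)) ^ #{j | f j = b} :=
    prod_le_prod (fun b _ => prod_nonneg fun j _ => hw0 j)
      fun b _ => group_prod _ _ (fun j _ => hw0 j) (h.group_sum b)
  have hsum : ∑ b, #{j | f j = b} = n := by
    have := Finset.card_eq_sum_card_fiberwise (f := f) (s := univ) (t := univ) (fun _ _ => mem_univ _)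
    rw [card_univ, Fintype.card_fin] at this
    exact this.symm
  have h4 : ∏ b, (1 / (#{j | f j = b} : ℝ)) ^ #{j | f j = b} ≤ M n k := by
    rw [M_eq]
    exact prod_le_M (fun b => #{j | f j = b}) n k hk hkn hκ hsum
  refine ⟨by rw [e1]; exact h2.trans (by rw [e2]; exact h3.trans h4), fun he => ?_⟩
  have hMpos : 0 < M n k := by rw [M_eq]; exact M_pos n k hk
  have g4 : ∏ b, (1 / (#{j | f j = b} : ℝ)) ^ #{j | f j = b} = M n k := by
    refine le_antisymm h4 ?_
    rw [← he, e1]
    exact h2.trans (by rw [e2]; exact h3)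
  have g2 : ∏ j, A (σ.symm j) j = ∏ j, Y V f (f j) j := by
    refine le_antisymm h2 ?_
    rw [← e1, he, ← g4, e2]
    exact h3
  have g3 : ∏ b, ∏ j with f j = b, Y V f (f j) j = ∏ b, (1 / (#{j | f j = b} : ℝ)) ^ #{j | f j = b} := by
    rw [← e2, ← g2, ← e1, he, g4]
  have hpos3 : 0 < ∏ b, ∏ j with f j = b, Y V f (f j) j := by rw [g3, g4]; exact hMpos
  have hfac : ∀ b, ∏ j with f j = b, Y V f (f j) j = (1 / (#{j | f j = b} : ℝ)) ^ #{j | f j = b} := by
    intro b
    by_contra hne
    have hlt := lt_of_le_of_ne (group_prod _ _ (fun j _ => hw0 j) (h.group_sum b)) hne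
    have hpp : ∀ b ∈ (univ : Finset κ), 0 < ∏ j with f j = b, Y V f (f j) j := by
      intro b hb
      refine lt_of_le_of_ne (prod_nonneg fun j _ => hw0 j) fun h00 => ?_
      rw [prod_eq_zero hb h00.symm] at hpos3
      exact lt_irrefl _ hpos3
    have := prod_lt_prod hpp (fun b _ => group_prod _ _ (fun j _ => hw0 j) (h.group_sum b))
      ⟨b, mem_univ b, hlt⟩
    rw [g3] at this
    exact lt_irrefl _ this
  have hY : ∀ j, Y V f (f j) j = 1 / (#{x | f x = f j} : ℝ) := fun j =>
    group_prod_eq _ _ (fun j _ => hw0 j) (h.group_sum (f j)) (hfac (f j)) j (by simp)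
  obtain ⟨hc1, hc2⟩ := eq_of_prod_eq_M (fun b => #{j | f j = b}) n k hk hkn hκ hsum g4
  refine ⟨hc1, hc2, hY, fun j => ?_⟩
  rw [← hY j]
  by_contra hne
  have hlt := lt_of_le_of_ne (hle (σ.symm j) j) hne
  have hposA : 0 < ∏ j, A (σ.symm j) j := by rw [← e1, he]; exact hMpos
  have hpp : ∀ j ∈ (univ : Finset (Fin n)), 0 < A (σ.symm j) j := by
    intro j hj
    refine lt_of_le_of_ne (h0 _ _) fun h00 => ?_
    have hz : ∏ j, A (σ.symm j) j = 0 := prod_eq_zero (f := fun j => A (σ.symm j) j) hj h00.symm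
    linarith
  have := prod_lt_prod hpp (fun j _ => hle (σ.symm j) j) ⟨j, mem_univ j, hlt⟩
  rw [g2] at this
  exact lt_irrefl _ this

/-- row-stochastic matrices -/
lemma row_case (n k : ℕ) (hk : 1 ≤ k) (hkn : k ≤ n) (σ : Equiv.Perm (Fin n))
    (A : Matrix (Fin n) (Fin n) ℝ) (hA : RowStochastic A) (hr : A.rank ≤ k) :
    ∏ i, A i (σ i) ≤ M n k ∧
      (∏ i, A i (σ i) = M n k → ∃ P : Equiv.Perm (Fin n),
        A = (P.permMatrix ℝ)ᵀ * J (comp n k hk hkn) * P.permMatrix ℝ * σ.permMatrix ℝ) := by
  classical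
  obtain ⟨h0, h1⟩ := hA
  obtain ⟨κ, hfin, a, C, hcard, hli, hC⟩ := exists_rows A
  set V := A.submatrix a id with hV
  have i0 : Fin n := ⟨0, by omega⟩
  have hne : Nonempty κ := by
    by_contra hcon
    rw [not_nonempty_iff] at hcon
    have : ∑ j, A i0 j = 0 := by
      refine sum_eq_zero fun j _ => ?_
      rw [hC, Matrix.mul_apply]
      simp
    rw [h1] at this
    exact one_ne_zero this
  obtain ⟨f, hf⟩ := exists_opt V (fun x y => h0 _ _) hli
  have hκ : Fintype.card κ ≤ k := by rw [hcard]; exact hr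
  have hb := bound_row hf A C hC h0 h1 k hk hkn hκ σ
  refine ⟨hb.1, fun he => ?_⟩
  obtain ⟨hc1, hc2, hY, hD⟩ := hb.2 he
  -- no ties
  have htie : ∀ j b, b ≠ f j → Y V f b j ≠ Y V f (f j) j := by
    intro j b hbj ht
    have hg := hf.tie j b ht
    obtain ⟨-, -, -, hD'⟩ := (bound_row hg A C hC h0 h1 k hk hkn hκ σ).2 he
    obtain ⟨j1, hj1⟩ := hg.surj (f j)
    have hne1 : j1 ≠ j := by
      rintro rfl
      rw [Function.update_self] at hj1
      exact hbj hj1
    have hfj1 : f j1 = f j := by rwa [Function.update_of_ne hne1] at hj1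
    have e1 := hD j1
    rw [hD' j1, hj1, hfj1] at e1
    have hsub : (univ.filter fun x => Function.update f j b x = f j)
        = (univ.filter fun x => f x = f j).erase j := by
      ext x
      simp only [mem_filter, mem_univ, true_and, mem_erase]
      by_cases hx : x = j
      · subst hx; simp [hbj]
      · simp [Function.update_of_ne hx, hx]
    have hmem : j ∈ univ.filter fun x => f x = f j := by simp
    have hcd := Finset.card_erase_of_mem hmem
    have hpos : 0 < #(univ.filter fun x => f x = f j) := card_pos.2 ⟨j, hmem⟩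
    rw [hsub] at e1
    have hpos2 : 0 < #((univ.filter fun x => f x = f j).erase j) :=
      card_pos.2 ⟨j1, mem_erase.2 ⟨hne1, by simp [hfj1]⟩⟩
    have e2 : (#((univ.filter fun x => f x = f j).erase j) : ℝ)
        = #(univ.filter fun x => f x = f j) := by
      have p1 : (0 : ℝ) < #(univ.filter fun x => f x = f j) := by exact_mod_cast hpos
      have p2 : (0 : ℝ) < #((univ.filter fun x => f x = f j).erase j) := by exact_mod_cast hpos2
      rw [one_div, one_div, _root_.inv_inj] at e1
      exact e1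
    have e3 : #((univ.filter fun x => f x = f j).erase j) = #(univ.filter fun x => f x = f j) := by
      exact_mod_cast e2
    omega
  -- the entries
  have hzero : ∀ j j', f j' ≠ f j → A (σ.symm j) j' = 0 := by
    intro j j' hjj
    exact hf.zero_of_eq A C hC h0 h1 (σ.symm j) j (by rw [hD j, hY j]) (f j') (htie j _ hjj) j' rfl
  have hone : ∀ j j', f j' = f j → A (σ.symm j) j' = 1 / (#{x | f x = f j} : ℝ) := by
    intro j
    have hle : ∀ j' ∈ univ.filter (fun x => f x = f j),
        A (σ.symm j) j' ≤ 1 / (#{x | f x = f j} : ℝ) := by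
      intro j' hj'
      have := hf.entry_le A C hC h0 h1 (σ.symm j) j'
      rw [hY j', (mem_filter.1 hj').2] at this
      exact this
    have hs : ∑ j' with f j' = f j, A (σ.symm j) j' = ∑ j' with f j' = f j,
        1 / (#{x | f x = f j} : ℝ) := by
      have hpos : (0 : ℝ) < #(univ.filter fun x => f x = f j) := by
        exact_mod_cast card_pos.2 ⟨j, by simp⟩
      rw [sum_const, nsmul_eq_mul, mul_one_div, div_self hpos.ne', ← h1 (σ.symm j),
        Finset.sum_filter]
      refine sum_congr rfl fun j' _ => ?_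
      split_ifs with hh
      · rfl
      · exact (hzero j j' hh).symm
    intro j' hj'
    exact (sum_eq_sum_iff_of_le hle).1 hs j' (by simp [hj'])
  -- the permutation
  set c := comp n k hk hkn with hc
  have hsum : ∑ b, #{j | f j = b} = n := by
    have := Finset.card_eq_sum_card_fiberwise (f := f) (s := univ) (t := univ) (fun _ _ => mem_univ _)
    rw [card_univ, Fintype.card_fin] at this
    exact this.symm
  obtain ⟨e, he'⟩ := exists_equiv (fun b : κ => #{j | f j = b}) c.blocksFun (fun v => by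
    rw [count_parts (fun b : κ => #{j | f j = b}) n k hk hc1 hsum hc2 v,
      count_parts c.blocksFun n k hk
        (by rw [Fintype.card_fin]; exact comp_length n k hk hkn) c.sum_blocksFun
        (comp_blocksFun n k hk hkn) v])
  obtain ⟨τ, hτ⟩ := exists_equiv (fun j : Fin n => e (f j)) c.index (fun b => by
    rw [card_index c b]
    obtain ⟨b', rfl⟩ := e.surjective b
    rw [he' b', Fintype.card_subtype]
    congr 1
    ext x
    simp)
  refine ⟨(σ.trans τ).symm, ?_⟩
  ext i j
  rw [conj_apply, Equiv.symm_symm, Equiv.trans_apply, Equiv.trans_apply, Equiv.apply_symm_apply, J,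
    hτ, hτ]
  have hi : σ.symm (σ i) = i := σ.symm_apply_apply i
  by_cases hij : f j = f (σ i)
  · rw [if_pos (by rw [hij]), he']
    have := hone (σ i) j hij
    rw [hi] at this
    exact this
  · rw [if_neg (fun hh => hij (e.injective hh).symm)]
    have := hzero (σ i) j hij
    rw [hi] at this
    exact this

/-- **Diagonal products of stochastic matrices of bounded rank.**  For `1 ≤ k ≤ n`, every
permutation `σ` and every row-stochastic or column-stochastic `n × n` matrix `A` of rank at most
`k`, one has `∏ i, A i (σ i) ≤ M(n,k)`, with equality if and only if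
`A = Pᵀ J_r P π(σ)` for some permutation matrix `P`. -/
theorem result (n k : ℕ) (hk : 1 ≤ k) (hkn : k ≤ n) (σ : Equiv.Perm (Fin n))
    (A : Matrix (Fin n) (Fin n) ℝ) (hA : RowStochastic A ∨ ColStochastic A) (hr : A.rank ≤ k) :
    ∏ i, A i (σ i) ≤ M n k ∧
      (∏ i, A i (σ i) = M n k ↔ ∃ P : Equiv.Perm (Fin n),
        A = (P.permMatrix ℝ)ᵀ * J (comp n k hk hkn) * P.permMatrix ℝ * σ.permMatrix ℝ) := by
  have hback : (∃ P : Equiv.Perm (Fin n),
      A = (P.permMatrix ℝ)ᵀ * J (comp n k hk hkn) * P.permMatrix ℝ * σ.permMatrix ℝ) →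
      ∏ i, A i (σ i) = M n k := by
    rintro ⟨P, rfl⟩
    exact prod_extremal n k hk hkn P σ
  rcases hA with hA | hA
  · obtain ⟨h1, h2⟩ := row_case n k hk hkn σ A hA hr
    exact ⟨h1, h2, hback⟩
  · have hA' : RowStochastic Aᵀ := ⟨fun i j => hA.1 j i, fun i => hA.2 i⟩
    have hr' : Aᵀ.rank ≤ k := by rw [Matrix.rank_transpose]; exact hr
    obtain ⟨h1, h2⟩ := row_case n k hk hkn σ.symm Aᵀ hA' hr'
    have e : ∏ i, Aᵀ i (σ.symm i) = ∏ i, A i (σ i) := by
      rw [← Equiv.prod_comp σ (fun i => Aᵀ i (σ.symm i))]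
      simp
    rw [e] at h1 h2
    refine ⟨h1, fun he => ?_, hback⟩
    obtain ⟨P, hP⟩ := h2 he
    refine ⟨(σ.trans P.symm).symm, ?_⟩
    ext i j
    have h3 : A i j = Aᵀ j i := rfl
    rw [h3, hP, conj_apply, conj_apply]
    have hsymm : ∀ x y, J (comp n k hk hkn) x y = J (comp n k hk hkn) y x := by
      intro x y
      unfold J
      by_cases h : (comp n k hk hkn).index x = (comp n k hk hkn).index y
      · rw [if_pos h, if_pos h.symm, h]
      · rw [if_neg h, if_neg (Ne.symm h)]
    rw [hsymm]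
    simp

end Pool.Agent.Results.MP_bd2037_co.DiagonalProducts
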